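import Pool.Agent.H21.SCH.Main

/-!
# The exact statistics of the gaps between twin pairs at the critical length, in Cramér's model

In Cramér's model the integers `n ≥ 3` are chosen independently with probability `1 / log n`. Let
`d ≥ 1` (`d = 2`: twins). The critical length for intervals which contain a pair `m, m + d` of chosen
integers is `(log x)³ - (log x)² log log x + w (log x)²`: a real number `x` is called empty at level `w`
if the open interval from `x` to `x` plus this length contains no pair. We describe the empty `x`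
completely: with `λ = e^(1 - w)`

* the gaps converge to a marked Poisson process (after a logarithmic change of scale),
* the probability that no `x` in `(X, X^c]` is empty tends to `c^(-λ)`,
* the measure of the empty `x ≤ X`, divided by `(log X)²`, converges to the Gamma law with shape `λ / 2`,
* the number of the gaps up to `X` is asymptotically normal, with mean and variance `λ log log X`,
* almost surely there are arbitrarily large `X` such that no `x` in `(X, X^((log log X)^κ)]` is empty if
  `κ < 1 / λ`, and there are none (from some point on) if `κ > 1 / λ`.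
-/

set_option autoImplicit false

namespace Pool.Agent.Results.MP_d610d0_nt.CriticalGapStatistics

open MeasureTheory ProbabilityTheory Filter Topology Set

universe u

variable {Ω : Type u}

/-- Cramér's model: the events `A n` (`n` is chosen) are independent, and they have the probabilities
`1 / log n` for `n ≥ 3`. -/
structure CramerModel [MeasurableSpace Ω] (μ : Measure Ω) (A : ℕ → Set Ω) : Prop where
  meas : ∀ n, MeasurableSet (A n)
  indep : iIndepSet A μ
  prob : ∀ n : ℕ, 3 ≤ n → μ.real (A n) = 1 / Real.log n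

/-- There is a pair at `m`: both `m` and `m + d` are chosen. -/
def Pair (A : ℕ → Set Ω) (d m : ℕ) : Set Ω := A m ∩ A (m + d)

/-- The critical length `(log x)³ - (log x)² log log x + w (log x)²`. -/
noncomputable def len (w x : ℝ) : ℝ :=
  Real.log x ^ 3 - Real.log x ^ 2 * Real.log (Real.log x) + w * Real.log x ^ 2

/-- `x` is empty at level `w`: no pair `m, m + d` lies in the open interval `(x, x + len w x)`. -/
def Empty (A : ℕ → Set Ω) (d : ℕ) (w x : ℝ) : Set Ω :=
  {ω | ∀ m : ℕ, x < m → ((m + d : ℕ) : ℝ) < x + len w x → ω ∉ Pair A d m}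

/-- There is a gap at `a` at level `w`: there is a pair at `a`, and `a` is empty at level `w`. -/
def Gap (A : ℕ → Set Ω) (d : ℕ) (w : ℝ) (a : ℕ) : Set Ω := Pair A d a ∩ Empty A d w a

/-- The number of the `a` in `(x, y]` with a gap at level `u`, but not at level `v` (without the second
condition if `v = ∞`). -/
noncomputable def gaps (A : ℕ → Set Ω) (d : ℕ) (u : ℝ) (v : EReal) (x y : ℝ) (ω : Ω) : ℕ :=
  {a : ℕ | x < a ∧ (a : ℝ) ≤ y ∧ ω ∈ Gap A d u a ∧ ∀ v' : ℝ, (v' : EReal) = v → ω ∉ Gap A d v' a}.ncard

/-- No `x` in `(X, Y]` is empty at level `w`: all the intervals `(x, x + len w x)` contain a pair. -/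
def AllContain (A : ℕ → Set Ω) (d : ℕ) (w X Y : ℝ) : Set Ω :=
  {ω | ∀ x : ℝ, X < x → x ≤ Y → ω ∉ Empty A d w x}

/-- The Lebesgue measure of the set of the `x ∈ (16, X]` which are empty at level `w`. -/
noncomputable def emptyMeasure (A : ℕ → Set Ω) (d : ℕ) (w X : ℝ) (ω : Ω) : ℝ :=
  (volume : Measure ℝ).real {x : ℝ | 16 < x ∧ x ≤ X ∧ ω ∈ Empty A d w x}

/-- `e ^ (1 - v)`, which is `0` for `v = ∞`. -/
noncomputable def rate (v : EReal) : ℝ := if v = ⊤ then 0 else Real.exp (1 - v.toReal)

theorem len_eq (w x : ℝ) : H21SCH.len 2 w x = len w x := by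
  unfold H21SCH.len len; push_cast; ring

theorem pat_eq (A : ℕ → Set Ω) (d m : ℕ) : H21SCH.Pat A d m = Pair A d m := rfl

theorem fails_eq (A : ℕ → Set Ω) (d : ℕ) (w x : ℝ) : H21SCH.Fails A d 2 w x = Empty A d w x := by
  unfold H21SCH.Fails Empty; simp only [len_eq, pat_eq]

theorem gap_eq (A : ℕ → Set Ω) (d : ℕ) (w : ℝ) (a : ℕ) : H21SCH.Gap A d 2 w a = Gap A d w a := by
  unfold H21SCH.Gap Gap; rw [fails_eq, pat_eq]

theorem num_eq (A : ℕ → Set Ω) (d : ℕ) (u : ℝ) (v : EReal) (x y : ℝ) (ω : Ω) :
    H21SCH.Num A d 2 u v x y ω = gaps A d u v x y ω := by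
  unfold H21SCH.Num gaps; simp only [gap_eq]

theorem holds_eq (A : ℕ → Set Ω) (d : ℕ) (w X Y : ℝ) :
    H21SCH.Holds A d 2 w X Y = AllContain A d w X Y := by
  unfold H21SCH.Holds AllContain; simp only [fails_eq]

theorem vol_eq (A : ℕ → Set Ω) (d : ℕ) (w X : ℝ) (ω : Ω) :
    H21SCH.vol A d 2 w X ω = emptyMeasure A d w X ω := by
  unfold H21SCH.vol emptyMeasure; simp only [fails_eq]

theorem lam_eq (w : ℝ) : H21SCH.lamc 2 * Real.exp (-w) = Real.exp (1 - w) := by
  have h : H21SCH.lamc 2 = Real.exp 1 := by unfold H21SCH.lamc; simp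
  rw [h, ← Real.exp_add]; ring_nf

theorem mean_eq (s t u : ℝ) (v : EReal) :
    H21SCH.mean 2 s t u v = (rate u - rate v) * Real.log (t / s) := by
  have h : H21SCH.lamc 2 = Real.exp 1 := by unfold H21SCH.lamc; simp
  unfold H21SCH.mean H21SCH.tail rate
  have h1 : ((u : EReal) = ⊤) = False := by simp
  rw [h]
  by_cases hv : v = ⊤
  · simp only [hv, h1, if_true, if_false, EReal.toReal_coe]
    rw [show (1 : ℝ) - u = 1 + -u by ring, Real.exp_add]; ring
  · simp only [hv, h1, if_false, EReal.toReal_coe]
    rw [show (1 : ℝ) - u = 1 + -u by ring, Real.exp_add, show (1 : ℝ) - v.toReal = 1 + -v.toReal by ring,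
      Real.exp_add]; ring

theorem model_iff [MeasurableSpace Ω] (μ : Measure Ω) (A : ℕ → Set Ω) :
    CramerModel μ A ↔ H21SCH.CramerModel μ A :=
  ⟨fun h => ⟨h.meas, h.indep, h.prob⟩, fun h => ⟨h.meas, h.indep, h.prob⟩⟩

/-- **The statistics of the gaps between pairs `m, m + d` at the critical length.** Cramér's model exists, and in
Cramér's model the following holds for every `d ≥ 1`, with `λ = e ^ (1 - w)`.

(1) The gaps form asymptotically a marked Poisson process: for finitely many disjoint boxes
`(s i, t i] × [u i, v i)`, `0 < s i < t i`, `u i < v i ≤ ∞`, the numbers of the `a` in `(X ^ s i, X ^ t i]` with a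
gap at level `u i`, but not at level `v i`, converge jointly in law to independent Poisson variables with the
means `(e ^ (1 - u i) - e ^ (1 - v i)) log (t i / s i)`.

(2) The probability that no `x ∈ (X, X ^ c]` is empty at level `w` converges to `c ^ (-λ)`.

(3) The measure of the `x ≤ X` which are empty at level `w`, divided by `(log X)²`, converges in law to the
Gamma distribution with shape `λ / 2` and rate `1`.

(4) The number of the `a ≤ X` with a gap at level `w` is asymptotically normal with mean and variance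
`λ log log X`.

(5) If `κ λ > 1`, then almost surely for all large `X` some `x` between `X` and `X ^ ((log log X) ^ κ)` is
empty at level `w`; if `κ λ < 1`, then almost surely there are arbitrarily large `X` for which there is no such
`x`. -/
theorem result :
    (∃ (Ω : Type) (_ : MeasurableSpace Ω) (μ : Measure Ω) (_ : IsProbabilityMeasure μ)
      (A : ℕ → Set Ω), CramerModel μ A) ∧
    ∀ (Ω : Type u) [MeasurableSpace Ω] (μ : Measure Ω) [IsProbabilityMeasure μ] (A : ℕ → Set Ω),
      CramerModel μ A → ∀ d : ℕ, 1 ≤ d →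
      -- (1)
      (∀ (k : ℕ) (s t u : Fin k → ℝ) (v : Fin k → EReal),
        (∀ i, 0 < s i ∧ s i < t i ∧ (u i : EReal) < v i) →
        (∀ i l, i ≠ l → Disjoint (Ioc (s i) (t i) ×ˢ Ico (u i : EReal) (v i))
          (Ioc (s l) (t l) ×ˢ Ico (u l : EReal) (v l))) →
        ∀ n : Fin k → ℕ, Tendsto (fun X : ℝ =>
          μ.real {ω | ∀ i, gaps A d (u i) (v i) (X ^ s i) (X ^ t i) ω = n i}) atTop
          (𝓝 (∏ i, Real.exp (-((rate (u i) - rate (v i)) * Real.log (t i / s i))) *
            ((rate (u i) - rate (v i)) * Real.log (t i / s i)) ^ n i / (n i).factorial))) ∧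
      -- (2)
      (∀ w c : ℝ, 1 ≤ c → Tendsto (fun X : ℝ => μ.real (AllContain A d w X (X ^ c))) atTop
        (𝓝 (c ^ (-Real.exp (1 - w))))) ∧
      -- (3)
      (∀ w y : ℝ, Tendsto (fun X : ℝ => μ.real {ω | emptyMeasure A d w X ω ≤ y * Real.log X ^ 2})
        atTop (𝓝 ((gammaMeasure (Real.exp (1 - w) / 2) 1).real (Iic y)))) ∧
      -- (4)
      (∀ w y : ℝ, Tendsto (fun X : ℝ => μ.real {ω | (gaps A d w ⊤ 16 X ω : ℝ) ≤
          Real.exp (1 - w) * Real.log (Real.log X) +
            y * √(Real.exp (1 - w) * Real.log (Real.log X))}) atTop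
        (𝓝 ((gaussianReal 0 1).real (Iic y)))) ∧
      -- (5)
      (∀ w κ : ℝ,
        (1 < κ * Real.exp (1 - w) → ∀ᵐ ω ∂μ, ∀ᶠ X : ℝ in atTop,
          ω ∉ AllContain A d w X (X ^ (Real.log (Real.log X) ^ κ))) ∧
        (κ * Real.exp (1 - w) < 1 → ∀ᵐ ω ∂μ, ∃ᶠ X : ℝ in atTop,
          ω ∈ AllContain A d w X (X ^ (Real.log (Real.log X) ^ κ)))) := by
  constructor
  · obtain ⟨Ω, i1, μ, i2, A, h⟩ := H21SCH.Main.ex'
    exact ⟨Ω, i1, μ, i2, A, (model_iff μ A).2 h⟩
  · intro Ω _ μ _ A hA d hd
    have hA' := (model_iff μ A).1 hA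
    have hc : H21SCH.Cas d 2 := Or.inr ⟨hd, rfl⟩
    refine ⟨?_, ?_, ?_, ?_, ?_⟩
    · intro k s t u v h1 h2 n
      have := H21SCH.Main.poi' Ω μ A hA' d 2 hc k s t u v h1 h2 n
      simpa only [num_eq, mean_eq] using this
    · intro w c h1
      have := H21SCH.Main.par' Ω μ A hA' d 2 w c hc h1
      simpa only [holds_eq, lam_eq] using this
    · intro w y
      have := H21SCH.Main.gam' Ω μ A hA' d 2 w y hc
      simpa only [vol_eq, lam_eq, Nat.cast_ofNat] using this
    · intro w y
      have := H21SCH.Main.clt' Ω μ A hA' d 2 w y hc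
      simpa only [num_eq, lam_eq] using this
    · intro w κ
      refine ⟨fun h => ?_, fun h => ?_⟩
      · have := H21SCH.Main.bca' Ω μ A hA' d 2 w κ hc (by rw [lam_eq]; exact h)
        simpa only [holds_eq] using this
      · have := H21SCH.Main.bcb' Ω μ A hA' d 2 w κ hc (by rw [lam_eq]; exact h)
        simpa only [holds_eq] using this

end Pool.Agent.Results.MP_d610d0_nt.CriticalGapStatistics
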