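import Pool.Agent.H49.D.IG

/-!
# Small gaps in random sets of order three
-/

set_option autoImplicit false

namespace Pool.Agent.Results.MP_d610d0_nt.GapsOfOrderThree

open Finset MeasureTheory Filter Topology

/-- A random set of primes of order `K`: `A m` is the event that `m` belongs to the random set; these events have
probability `1 / log m` for `m ≥ 3`, as in Cramér's model, but only `K` of them at a time are supposed to be
independent. -/
structure Model (K : ℕ) {Ω : Type} [MeasurableSpace Ω] (μ : Measure Ω) (A : ℕ → Set Ω) : Prop where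
  meas : ∀ m, MeasurableSet (A m)
  ind : ∀ T : Finset ℕ, (∀ m ∈ T, 3 ≤ m) → T.card ≤ K → μ.real (⋂ m ∈ T, A m) = ∏ m ∈ T, 1 / Real.log m

/-- the pairs `(m, m')` of elements of the random set with `m < m' ≤ m + g m` -/
def Close {Ω : Type} (A : ℕ → Set Ω) (g : ℕ → ℝ) (ω : Ω) : Set (ℕ × ℕ) :=
  {p | p.1 < p.2 ∧ (p.2 : ℝ) ≤ p.1 + g p.1 ∧ ω ∈ A p.1 ∧ ω ∈ A p.2}

/-- **Theorem.** Let `g` be nondecreasing. (1) There is a model of order `3` in which almost surely there are only
finitely many pairs `m < m' ≤ m + g m` of elements of the random set, if and only if `g m / log m` tends to `0`. (2) If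
`g m ≥ c log m` for infinitely many `m`, where `c > 0`, then in every model of order `3` there are infinitely many such
pairs with probability at least `2 c / (1 + 2 c)`. -/
theorem result :
    (∀ g : ℕ → ℝ, Monotone g → (Tendsto (fun m : ℕ => g m / Real.log m) atTop (𝓝 0) ↔
      ∃ (Ω : Type) (_ : MeasurableSpace Ω) (μ : Measure Ω) (A : ℕ → Set Ω), IsProbabilityMeasure μ ∧ Model 3 μ A ∧
        ∀ᵐ ω ∂μ, (Close A g ω).Finite)) ∧
    (∀ g : ℕ → ℝ, Monotone g → ∀ c : ℝ, 0 < c → (∃ᶠ m : ℕ in atTop, c * Real.log m ≤ g m) →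
      ∀ (Ω : Type) [MeasurableSpace Ω] (μ : Measure Ω) [IsProbabilityMeasure μ] (A : ℕ → Set Ω), Model 3 μ A →
        2 * c / (1 + 2 * c) ≤ μ.real {ω | (Close A g ω).Infinite}) := by
  refine ⟨?_, ?_⟩
  · intro g hg
    rw [Pool.Agent.H49.SM.threshold g hg]
    constructor
    · rintro ⟨Ω, mΩ, μ, A, h1, h2, h3⟩
      exact ⟨Ω, mΩ, μ, A, h1, ⟨h2.meas, h2.ind⟩, h3⟩
    · rintro ⟨Ω, mΩ, μ, A, h1, h2, h3⟩
      exact ⟨Ω, mΩ, μ, A, h1, ⟨h2.meas, h2.ind⟩, h3⟩
  · intro g hg c hc hf Ω _ μ _ A hA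
    exact Pool.Agent.H49.SM.lower (Pool.Agent.H49.TW.Model.mk hA.meas hA.ind) hg hc hf

end Pool.Agent.Results.MP_d610d0_nt.GapsOfOrderThree
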