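import Pool.Agent.H50.GW.ALL
import Pool.Agent.H50.GW.RES
import Pool.Agent.H50.GW.CUB
import Pool.Agent.H50.GW.VLM

/-!
# Twin pairs in Granville's model of the primes: between cubes, and at the critical scale `(log x)³`

Granville's refinement of Cramér's model: independent events `A n` (the number `n` is chosen); the
multiples of the primes `p ≤ z n` are not chosen, `log (z n) ~ log log n`, and the other `n` are chosen
with a probability asymptotic to `∏_{p ≤ z n} (1 - 1/p)⁻¹ / log n`.  Almost surely the number of twin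
pairs between consecutive cubes is asymptotic to the number predicted by Hardy and Littlewood, and for
every `C > 0` we determine the upper and the lower limit of the number of twin pairs in the intervals
`(x, x + C (log x)³)` divided by `log x`, and whether such intervals can be free of twin pairs.
-/

set_option autoImplicit false

open MeasureTheory Filter Set ProbabilityTheory
open scoped Topology ENNReal

namespace Pool.Agent.Results.MP_d610d0_nt.GranvilleTwins

/-- `T(n)`, with the members of `S` in place of the primes: the number of the pairs `(p, p + 2)` with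
`n³ < p < p + 2 < (n + 1)³` -/
noncomputable def T (S : Set ℕ) (n : ℕ) : ℕ :=
  Set.ncard {p : ℕ | p ∈ S ∧ p + 2 ∈ S ∧ n ^ 3 < p ∧ p + 2 < (n + 1) ^ 3}

/-- the number of the pairs `(m, m + 2)` of members of `S` with `x < m < x + y` -/
noncomputable def count (S : Set ℕ) (x y : ℝ) : ℕ :=
  Set.ncard {m : ℕ | m ∈ S ∧ m + 2 ∈ S ∧ x < m ∧ (m : ℝ) < x + y}

/-- `∏_{p ≤ y} (1 - 1/p)` -/
noncomputable def mertens (y : ℕ) : ℝ := ∏ p ∈ (Finset.Icc 1 y).filter Nat.Prime, (1 - (p : ℝ)⁻¹)

/-- `n` has no prime factor `≤ w` -/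
def Rough (w n : ℕ) : Prop := ∀ p : ℕ, p.Prime → p ∣ n → w < p

/-- `∏_{p ≤ w} (1 - ν(p)/p) (1 - 1/p)⁻²` with `ν(2) = 1` and `ν(p) = 2` for `p > 2` -/
noncomputable def twinProduct (w : ℕ) : ℝ :=
  (∏ p ∈ (Finset.Icc 1 w).filter Nat.Prime, (1 - (if p = 2 then 1 else 2 : ℝ) / p)) / mertens w ^ 2

/-- the number of the `m` in `(t, t + w³]` such that `m` and `m + 2` have no prime factors `≤ w`,
divided by `w³ ∏_{p ≤ w} (1 - 1/p)²` -/
noncomputable def twinDensity (w t : ℕ) : ℝ :=
  (Set.ncard {m : ℕ | t < m ∧ m ≤ t + w ^ 3 ∧ Rough w m ∧ Rough w (m + 2)} : ℝ) / ((w : ℝ) ^ 3 * mertens w ^ 2)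

/-- the lower extremal density of the twin sieve: the sparsest intervals of length `w³`, `w → ∞` -/
noncomputable def sparsest : ℝ≥0∞ :=
  liminf (fun w : ℕ => ⨅ t : ℕ, ENNReal.ofReal (twinDensity w t)) atTop

/-- the upper extremal density of the twin sieve: the densest intervals of length `w³`, `w → ∞` -/
noncomputable def densest : ℝ≥0∞ :=
  limsup (fun w : ℕ => ⨆ t : ℕ, ENNReal.ofReal (twinDensity w t)) atTop

/-- the largest `u` with `u log (u / l) - u + l ≤ 1`: the threshold for the upper deviations, of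
probability `1 / x`, of a Poisson variable of mean `l log x` -/
noncomputable def upper (l : ℝ) : ℝ := sSup {u : ℝ | 0 ≤ u ∧ u * Real.log (u / l) - u + l ≤ 1}

/-- the smallest `u ≥ 0` with `u log (u / l) - u + l ≤ 1` -/
noncomputable def lower (l : ℝ) : ℝ := sInf {u : ℝ | 0 ≤ u ∧ u * Real.log (u / l) - u + l ≤ 1}

/-- Granville's model -/
structure GranvilleModel {Ω : Type} [MeasurableSpace Ω] (P : Measure Ω) (A : ℕ → Set Ω) (z : ℕ → ℕ) : Prop where
  prob : IsProbabilityMeasure P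
  meas : ∀ n, MeasurableSet (A n)
  indep : iIndepSet A P
  empty : ∀ n, ¬ Rough (z n) n → A n = ∅
  mono : Monotone z
  level : Tendsto (fun n : ℕ => Real.log (z n) / Real.log (Real.log n)) atTop (𝓝 1)
  density : Tendsto (fun n : ℕ => (P (A n)).toReal * (Real.log n * mertens (z n)))
    (atTop ⊓ 𝓟 {n : ℕ | Rough (z n) n}) (𝓝 1)

open Pool.Agent.H50.BF Pool.Agent.H50.CW Pool.Agent.H50.GW

lemma cub' : S_CUB := cub fnd sng Pool.Agent.H50.GW.ind ldu' mert (vlm sng)

lemma mertens_MM (w : ℕ) : mertens w = (MM w)⁻¹ := mert1_MM w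

lemma rough_iff (w n : ℕ) : Rough w n ↔ Rou w n := Rou_iff w n

lemma gmod_iff {Ω : Type} [MeasurableSpace Ω] (P : Measure Ω) (A : ℕ → Set Ω) (z : ℕ → ℕ) :
    GranvilleModel P A z ↔ GMod P A z := by
  have h1 : {n : ℕ | Rough (z n) n} = {n : ℕ | Rou (z n) n} := by
    ext n
    exact rough_iff _ _
  have h2 : (fun n : ℕ => (P (A n)).toReal * (Real.log n * mertens (z n))) =
      fun n : ℕ => (P (A n)).toReal * (Real.log n / MM (z n)) := by
    funext n
    rw [mertens_MM, div_eq_mul_inv]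
  constructor
  · intro h
    exact ⟨h.prob, h.meas, h.indep, fun n hn => h.empty n (by rwa [rough_iff]), h.mono, h.level, by
      have := h.density
      rwa [h1, h2] at this⟩
  · intro h
    refine ⟨h.prob, h.meas, h.indep, fun n hn => h.empty n (by rwa [rough_iff] at hn), h.mono, h.lev, ?_⟩
    have := h.dens
    rw [h1, h2]
    exact this

/-- the forms -/
def cc : Fin 2 → ℕ := ![1, 1]
/-- the forms -/
def dd : Fin 2 → ℕ := ![0, 2]

lemma forall_cd {Q : ℕ → Prop} (m : ℕ) : (∀ i : Fin 2, Q (cc i * m + dd i)) ↔ Q m ∧ Q (m + 2) := by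
  rw [Fin.forall_fin_two]
  simp [cc, dd]

lemma exists_cd {Q : ℕ → Prop} (m : ℕ) : (∃ i : Fin 2, Q (cc i * m + dd i)) ↔ Q m ∨ Q (m + 2) := by
  rw [Fin.exists_fin_two]
  simp [cc, dd]

lemma sys2 : Sys cc dd where
  one := by norm_num
  pos := fun i => by fin_cases i <;> simp [cc]
  adm := fun p hp => by
    rcases eq_or_ne p 2 with h | h
    · refine ⟨1, (forall_cd (Q := fun n => ¬ p ∣ n) 1).2 ?_⟩
      subst h
      decide
    · have h3 : 3 ≤ p := by
        have := hp.two_le
        omega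
      refine ⟨2, (forall_cd (Q := fun n => ¬ p ∣ n) 2).2 ⟨?_, ?_⟩⟩
      · intro hd
        have := Nat.le_of_dvd (by norm_num) hd
        omega
      · intro hd
        have h4 : p ∣ 2 := hp.dvd_of_dvd_pow (show p ∣ 2 ^ 2 by simpa using hd)
        have := Nat.le_of_dvd (by norm_num) h4
        omega
  ndg := fun i j hij => by
    fin_cases i <;> fin_cases j <;> simp_all [cc, dd]
  inj := ⟨0, fun m _ i j h => by
    fin_cases i <;> fin_cases j <;> simp_all [cc, dd]⟩
  col := ⟨0, fun m m' _ h1 _ i j h2 => by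
    have h3 : m' = m + 2 := by
      fin_cases i <;> fin_cases j <;> simp [cc, dd] at h2 <;> omega
    refine ⟨3, Nat.prime_three, le_rfl, ?_⟩
    subst h3
    have h4 : m % 3 = 0 ∨ m % 3 = 1 ∨ m % 3 = 2 := by omega
    rcases h4 with h | h | h
    · exact ⟨0, Or.inl (by simp [cc, dd]; omega)⟩
    · exact ⟨1, Or.inl (by simp [cc, dd]; omega)⟩
    · exact ⟨1, Or.inr (by simp [cc, dd]; omega)⟩⟩

lemma twinDensity_gd (w t : ℕ) : twinDensity w t = gd cc dd w t := by
  unfold twinDensity gd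
  congr 2
  congr 1
  ext m
  rw [Set.mem_ofPred_eq, Set.mem_ofPred_eq, forall_cd (Q := Rou w) m, rough_iff, rough_iff]
  tauto

lemma sparsest_eq : sparsest = slk cc dd := by
  rw [← liminf_gd]
  unfold sparsest
  simp only [twinDensity_gd]

lemma densest_eq : densest = shk cc dd := by
  rw [← limsup_gd]
  unfold densest
  simp only [twinDensity_gd]

lemma cntk_count (S : Set ℕ) (x y : ℝ) : cntk cc dd S x y = count S x y := by
  unfold cntk count
  congr 1
  ext m
  rw [Set.mem_ofPred_eq, Set.mem_ofPred_eq, forall_cd (Q := fun n => n ∈ S) m]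
  tauto

lemma nu_eq {p : ℕ} (hp : p.Prime) : (nu cc dd p : ℝ) = if p = 2 then 1 else 2 := by
  classical
  unfold nu
  have h1 : ∀ r : ℕ, (∃ i : Fin 2, p ∣ cc i * r + dd i) ↔ p ∣ r ∨ p ∣ r + 2 := fun r =>
    exists_cd (Q := fun n => p ∣ n) r
  have hp2 := hp.two_le
  by_cases h : p = 2
  · subst h
    rw [if_pos rfl]
    have h2 : ((Finset.range 2).filter (fun r => ∃ i : Fin 2, 2 ∣ cc i * r + dd i)) = {0} := by
      ext r
      rw [Finset.mem_filter, h1, Finset.mem_range, Finset.mem_singleton]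
      omega
    have h3 : (((Finset.range 2).filter (fun r => ∃ i : Fin 2, 2 ∣ cc i * r + dd i)).card : ℝ) = 1 := by
      rw [h2]
      simp
    convert h3
  · rw [if_neg h]
    have hp3 : 3 ≤ p := by omega
    have h2 : ((Finset.range p).filter (fun r => ∃ i : Fin 2, p ∣ cc i * r + dd i)) = {0, p - 2} := by
      ext r
      rw [Finset.mem_filter, h1, Finset.mem_range, Finset.mem_insert, Finset.mem_singleton]
      constructor
      · rintro ⟨hr, hd | hd⟩
        · exact Or.inl (Nat.eq_zero_of_dvd_of_lt hd hr)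
        · right
          obtain ⟨e, he⟩ := hd
          have h4 : e = 1 := by
            rcases e with _ | _ | e
            · omega
            · rfl
            · exfalso
              have : p * (e + 1 + 1) = p * e + p + p := by ring
              omega
          subst h4
          omega
      · rintro (hr | hr)
        · subst hr
          exact ⟨by omega, Or.inl (dvd_zero p)⟩
        · subst hr
          exact ⟨by omega, Or.inr (by rw [Nat.sub_add_cancel (by omega)])⟩
    have h3 : (((Finset.range p).filter (fun r => ∃ i : Fin 2, p ∣ cc i * r + dd i)).card : ℝ) = 2 := by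
      rw [h2, Finset.card_insert_of_notMem (by rw [Finset.mem_singleton]; omega), Finset.card_singleton]
      norm_num
    convert h3

lemma twinProduct_VV (w : ℕ) : twinProduct w = VV cc dd w := by
  unfold twinProduct VV
  rw [mertens_MM, inv_pow, div_inv_eq_mul]
  congr 1
  refine Finset.prod_congr rfl fun p hp => ?_
  rw [nu_eq (Finset.mem_filter.1 hp).2]

lemma T_ht {Ω : Type} (A : ℕ → Set Ω) (ω : Ω) {n : ℕ} (hn : 1 ≤ n) :
    T {m | ω ∈ A m} n = ht cc dd A ω (n ^ 3) (3 * n ^ 2 + 3 * n - 2) := by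
  rw [ht_ncard]
  unfold T
  congr 1
  ext m
  simp only [Set.mem_ofPred_eq]
  rw [forall_cd (Q := fun j => ω ∈ A j) m]
  have h1 : (n + 1) ^ 3 = n ^ 3 + 3 * n ^ 2 + 3 * n + 1 := by ring
  rw [h1]
  have h2 : 1 ≤ n ^ 2 := Nat.one_le_pow _ _ hn
  constructor
  · rintro ⟨h3, h4, h5, h6⟩
    exact ⟨⟨h3, h4⟩, h5, by omega⟩
  · rintro ⟨⟨h3, h4⟩, h5, h6⟩
    exact ⟨h3, h4, h5, by omega⟩

lemma cubes {Ω : Type} [MeasurableSpace Ω] {P : Measure Ω} {A : ℕ → Set Ω} {z : ℕ → ℕ} (hA : GMod P A z)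
    (hcub : S_CUB) {V : ℝ} (hV : Tendsto (fun v : ℕ => VV cc dd v) atTop (𝓝 V)) :
    ∀ᵐ ω ∂P, Tendsto (fun n : ℕ => (T {m | ω ∈ A m} n : ℝ) * Real.log n ^ 2 / (n : ℝ) ^ 2) atTop (𝓝 (V / 3)) := by
  have hz : Tendsto z atTop atTop := by
    have h1 : Tendsto (fun n : ℕ => Real.log (Real.log n)) atTop atTop := Real.tendsto_log_atTop.comp tlog
    have h2 : Tendsto (fun n : ℕ => Real.log (z n)) atTop atTop := by
      have h3 := hA.lev.pos_mul_atTop one_pos h1
      refine h3.congr' ?_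
      filter_upwards [h1.eventually_gt_atTop 0] with n hn
      field_simp
    refine tendsto_atTop.2 fun b => ?_
    filter_upwards [h2.eventually_gt_atTop (Real.log b), eventually_ge_atTop 0] with n hn _
    by_contra hcon
    push Not at hcon
    rcases Nat.eq_zero_or_pos (z n) with h | h
    · rw [h] at hn
      simp only [Nat.cast_zero, Real.log_zero] at hn
      have : 0 ≤ Real.log (b : ℝ) := Real.log_natCast_nonneg b
      linarith
    · have : Real.log (z n) ≤ Real.log b := Real.log_le_log (by exact_mod_cast h) (by exact_mod_cast hcon.le)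
      linarith
  filter_upwards [hcub Ω P A z hA 2 cc dd sys2 (1 / 2) (by norm_num)] with ω hω
  have hn3 : Tendsto (fun n : ℕ => n ^ 3) atTop atTop := tendsto_pow_atTop (by norm_num)
  have h1 : Tendsto (fun n : ℕ => (ht cc dd A ω (n ^ 3) (3 * n ^ 2 + 3 * n - 2) : ℝ) * Real.log ((n ^ 3 : ℕ) : ℝ) ^ 2 /
      ((3 * n ^ 2 + 3 * n - 2 : ℕ) : ℝ)) atTop (𝓝 V) := by
    have h2 : Tendsto (fun n : ℕ => VV cc dd (z (n ^ 3))) atTop (𝓝 V) := hV.comp (hz.comp hn3)
    have h3 : Tendsto (fun n : ℕ => (ht cc dd A ω (n ^ 3) (3 * n ^ 2 + 3 * n - 2) : ℝ) * Real.log ((n ^ 3 : ℕ) : ℝ) ^ 2 /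
        ((3 * n ^ 2 + 3 * n - 2 : ℕ) : ℝ) - VV cc dd (z (n ^ 3))) atTop (𝓝 0) := by
      rw [Metric.tendsto_nhds]
      intro ε hε
      filter_upwards [hn3.eventually (hω (ε / 2) (by positivity)), eventually_ge_atTop 7] with n h4 hn
      rw [Real.dist_eq, sub_zero]
      have hnr : (7 : ℝ) ≤ n := by exact_mod_cast hn
      have h6 : 2 ≤ 3 * n ^ 2 + 3 * n := by nlinarith
      refine lt_of_le_of_lt (h4 (3 * n ^ 2 + 3 * n - 2) ?_ ?_) (by linarith)
      · rw [← Real.sqrt_eq_rpow, Nat.cast_sub h6]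
        push_cast
        rw [Real.sqrt_le_left (by nlinarith)]
        nlinarith [pow_pos (show (0 : ℝ) < n by linarith) 3, pow_pos (show (0 : ℝ) < n by linarith) 4]
      · have : n ^ 3 = n * n ^ 2 := by ring
        rw [this]
        have h7 : 7 * n ^ 2 ≤ n * n ^ 2 := Nat.mul_le_mul_right _ hn
        have h8 : n ≤ n ^ 2 := Nat.le_self_pow (by norm_num) n
        omega
    have h5 := h3.add h2
    simpa using h5
  have h2 : Tendsto (fun n : ℕ => ((3 * n ^ 2 + 3 * n - 2 : ℕ) : ℝ) / (n : ℝ) ^ 2 / 9) atTop (𝓝 (3 / 9)) := by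
    refine Tendsto.div_const ?_ 9
    have h3 : Tendsto (fun n : ℕ => 3 + 3 * ((n : ℝ))⁻¹ - 2 * ((n : ℝ)⁻¹) ^ 2) atTop (𝓝 (3 + 3 * 0 - 2 * 0 ^ 2)) := by
      have h4 : Tendsto (fun n : ℕ => ((n : ℝ))⁻¹) atTop (𝓝 0) := tendsto_inv_atTop_nhds_zero_nat
      exact (tendsto_const_nhds.add (h4.const_mul 3)).sub ((h4.pow 2).const_mul 2)
    norm_num at h3
    refine h3.congr' ?_
    filter_upwards [eventually_ge_atTop 1] with n hn
    have hnr : (1 : ℝ) ≤ n := by exact_mod_cast hn
    have h6 : 2 ≤ 3 * n ^ 2 + 3 * n := by nlinarith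
    rw [Nat.cast_sub h6]
    push_cast
    field_simp
  have h3 := h1.mul h2
  rw [show V * (3 / 9) = V / 3 by ring] at h3
  refine h3.congr' ?_
  filter_upwards [eventually_ge_atTop 2] with n hn
  have hnr : (2 : ℝ) ≤ n := by exact_mod_cast hn
  have h6 : 2 ≤ 3 * n ^ 2 + 3 * n := by nlinarith
  have h7 : (0 : ℝ) < ((3 * n ^ 2 + 3 * n - 2 : ℕ) : ℝ) := by
    rw [Nat.cast_sub h6]
    push_cast
    nlinarith
  rw [T_ht A ω (by omega)]
  push_cast
  rw [Real.log_pow]
  push_cast
  field_simp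
  ring

/-- Twin pairs in Granville's model. -/
theorem result :
    -- Granville's model exists
    (∃ (Ω : Type) (_ : MeasurableSpace Ω) (P : Measure Ω) (A : ℕ → Set Ω) (z : ℕ → ℕ), GranvilleModel P A z) ∧
    -- the extremal densities of the twin sieve, and the thresholds
    0 < densest ∧ densest < ⊤ ∧ sparsest ≤ densest ∧
    (∀ l : ℝ, 0 < l → l ≤ upper l) ∧ (∀ l : ℝ, 1 < l → 0 < lower l) ∧ (∀ l : ℝ, 0 ≤ l → l ≤ 1 → lower l = 0) ∧
    -- the twin prime constant
    ∃ V : ℝ, 0 < V ∧ Tendsto twinProduct atTop (𝓝 V) ∧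
    ∀ (Ω : Type) [MeasurableSpace Ω] (P : Measure Ω) (A : ℕ → Set Ω) (z : ℕ → ℕ), GranvilleModel P A z →
      -- between consecutive cubes
      (∀ᵐ ω ∂P, Tendsto (fun n : ℕ => (T {m | ω ∈ A m} n : ℝ) * Real.log n ^ 2 / (n : ℝ) ^ 2) atTop (𝓝 (V / 3))) ∧
      -- the intervals `(x, x + C (log x)³)`
      (∀ C : ℝ, 0 < C → ∀ᵐ ω ∂P,
        limsup (fun x : ℝ => ENNReal.ofReal
          (count {n | ω ∈ A n} x (C * Real.log x ^ 3) / Real.log x)) atTop =
          ENNReal.ofReal (upper (C * densest.toReal)) ∧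
        liminf (fun x : ℝ => ENNReal.ofReal
          (count {n | ω ∈ A n} x (C * Real.log x ^ 3) / Real.log x)) atTop =
          ENNReal.ofReal (lower (C * sparsest.toReal)) ∧
        (C * sparsest.toReal < 1 → ∃ᶠ x : ℝ in atTop, count {n | ω ∈ A n} x (C * Real.log x ^ 3) = 0) ∧
        (1 < C * sparsest.toReal → ∀ᶠ x : ℝ in atTop, 0 < count {n | ω ∈ A n} x (C * Real.log x ^ 3))) := by
  obtain ⟨h0, h2, hle, hgen⟩ := general' gup' gex' rate hbk' sys2
  obtain ⟨V, hV0, hV⟩ := vlm sng 2 cc dd sys2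
  have hrate := rate
  refine ⟨?_, ?_, ?_, ?_, ?_, ?_, hrate.2.2.2.2.2.1, V, hV0, ?_, ?_⟩
  · obtain ⟨Ω, mΩ, P, A, z, h⟩ := gxm
    exact ⟨Ω, mΩ, P, A, z, (gmod_iff P A z).2 h⟩
  · rw [densest_eq]; exact h0
  · rw [densest_eq]; exact h2
  · rw [densest_eq, sparsest_eq]; exact hle
  · exact hrate.2.2.2.2.2.2.2
  · intro l hl
    exact dn_pos hl
  · rw [show twinProduct = fun v => VV cc dd v from funext twinProduct_VV]
    exact hV
  · intro Ω _ P A z hmod
    have hA := (gmod_iff P A z).1 hmod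
    refine ⟨cubes hA cub' hV, fun C hC => ?_⟩
    filter_upwards [hgen Ω P A z hA C hC] with ω hω
    simp only [cntk_count] at hω
    rw [densest_eq, sparsest_eq]
    exact hω

end Pool.Agent.Results.MP_d610d0_nt.GranvilleTwins
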