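import Pool.Agent.H50.BP.FINB
import Pool.Agent.H50.BP.ALL
import Pool.Agent.H50.BF.EXM

/-!
# Twin pairs in short intervals in the random sieve of Banks, Ford and Tao

Banks, Ford and Tao: remove a random residue class for every prime `p` and keep the integers `n` which
are not in the classes removed for the primes `p ≤ z n`, where `∏_{p ≤ z n} (1 - 1/p)` is asymptotic to
`1 / log n`.  Almost surely, for every `θ > e^(-γ) / 2 = 0.2807...`, the pairs `(m, m + h)` of elements of
this random set obey the asymptotic formula of Hardy and Littlewood in all intervals of length at least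
`n^θ` at `n`, uniformly in `1 ≤ h ≤ n`; in particular the number of twin pairs between consecutive cubes
is asymptotic to the number predicted by Hardy and Littlewood.
-/

set_option autoImplicit false

open MeasureTheory Filter Set
open scoped Topology ENNReal

namespace Pool.Agent.Results.MP_d610d0_nt.RandomSieveTwins

/-- `T(n)`, with the members of `S` in place of the primes: the number of the pairs `(p, p + 2)` with
`n³ < p < p + 2 < (n + 1)³` -/
noncomputable def T (S : Set ℕ) (n : ℕ) : ℕ :=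
  Set.ncard {p : ℕ | p ∈ S ∧ p + 2 ∈ S ∧ n ^ 3 < p ∧ p + 2 < (n + 1) ^ 3}

/-- the number of the pairs `(m, m + h)` of members of `S` with `n < m ≤ n + y` -/
noncomputable def pairs (S : Set ℕ) (h n y : ℕ) : ℕ :=
  Set.ncard {m : ℕ | m ∈ S ∧ m + h ∈ S ∧ n < m ∧ m ≤ n + y}

/-- `∏_{p ≤ y} (1 - 1/p)` -/
noncomputable def mertens (y : ℕ) : ℝ := ∏ p ∈ (Finset.Icc 1 y).filter Nat.Prime, (1 - (p : ℝ)⁻¹)

/-- `∏_{p ≤ w} (1 - ν(p)/p) (1 - 1/p)⁻²` with `ν(p) = 1` if `p` divides `h`, and `ν(p) = 2` otherwise -/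
noncomputable def pairProduct (h w : ℕ) : ℝ :=
  (∏ p ∈ (Finset.Icc 1 w).filter Nat.Prime, (1 - (if p ∣ h then 1 else 2 : ℝ) / p)) / mertens w ^ 2

/-- The residues of the random integers `a p` modulo the primes `p` are independent, and the residue
of `a p` modulo `p` is uniformly distributed: for all prescribed residues `c p < p`, `p ≤ w`, the
probability of `a p ≡ c p (mod p)` for all primes `p ≤ w` is `∏_{p ≤ w} 1/p`. -/
structure RandomResidues {Ω : Type} [MeasurableSpace Ω] (P : Measure Ω) (a : ℕ → Ω → ℕ) : Prop where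
  meas : ∀ p, Measurable (a p)
  law : ∀ (w : ℕ) (c : ℕ → ℕ), (∀ p : ℕ, p.Prime → c p < p) →
    P {ω | ∀ p : ℕ, p.Prime → p ≤ w → a p ω % p = c p} =
      ENNReal.ofReal (∏ p ∈ (Finset.Icc 1 w).filter Nat.Prime, (p : ℝ)⁻¹)

/-- the integers `n` with `n ≢ a p (mod p)` for all primes `p ≤ z n` -/
def randomSieve (a z : ℕ → ℕ) : Set ℕ := {n | ∀ p : ℕ, p.Prime → p ≤ z n → n % p ≠ a p % p}

open Pool.Agent.H50.BF Pool.Agent.H50.BP

lemma mertens_MM (w : ℕ) : mertens w = (MM w)⁻¹ := by
  unfold mertens MM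
  rw [Finset.prod_inv_distrib, inv_inv]

lemma pairProduct_SS (a : ℕ → ℕ) (h w : ℕ) : pairProduct h w = SS ![(1 : ℤ), 1] ![(0 : ℤ), (h : ℤ)] a w := by
  unfold pairProduct SS
  rw [mertens_MM, inv_pow, div_inv_eq_mul]
  congr 1
  refine Finset.prod_congr rfl fun p hp => ?_
  rw [nua_pair a h p (Finset.mem_filter.1 hp).2]
  split_ifs <;> norm_num

/-- Pairs in short intervals and twin pairs between consecutive cubes, in the random sieve. -/
theorem result :
    -- random residues exist
    (∃ (Ω : Type) (_ : MeasurableSpace Ω) (P : Measure Ω) (a : ℕ → Ω → ℕ), RandomResidues P a) ∧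
    -- the twin prime constant
    ∃ V : ℝ, 0 < V ∧ Tendsto (pairProduct 2) atTop (𝓝 V) ∧
    -- the random sieve of Banks, Ford and Tao
    ∀ (Ω : Type) [MeasurableSpace Ω] (P : Measure Ω) (a : ℕ → Ω → ℕ) (z : ℕ → ℕ), RandomResidues P a →
      Monotone z → Tendsto (fun n : ℕ => Real.log n * mertens (z n)) atTop (𝓝 1) → ∀ᵐ ω ∂P,
        -- pairs `(m, m + h)` in the intervals `(n, n + y]`, `n^θ ≤ y ≤ n`
        (∀ θ ε : ℝ, Real.exp (-Real.eulerMascheroniConstant) / 2 < θ → 0 < ε → ∀ᶠ n : ℕ in atTop,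
          ∀ y h : ℕ, (n : ℝ) ^ θ ≤ y → y ≤ n → 1 ≤ h → h ≤ n →
          |(pairs (randomSieve (fun p => a p ω) z) h n y : ℝ) -
              pairProduct h ⌊Real.log n ^ 10⌋₊ * (y / Real.log n ^ 2)| ≤
            ε * (pairProduct h ⌊Real.log n ^ 10⌋₊ * (y / Real.log n ^ 2))) ∧
        -- twin pairs between consecutive cubes
        Tendsto (fun n : ℕ => (T (randomSieve (fun p => a p ω) z) n : ℝ) * Real.log n ^ 2 / (n : ℝ) ^ 2)
          atTop (𝓝 (V / 3)) := by
  refine ⟨?_, ?_⟩
  · obtain ⟨Ω, mΩ, P, a, h⟩ := exm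
    exact ⟨Ω, mΩ, P, a, h.meas, h.law⟩
  · obtain ⟨V, hV0, hV⟩ := twin_const
    refine ⟨V, hV0, ?_, ?_⟩
    · rw [show pairProduct 2 = fun w => SS ![(1 : ℤ), 1] ![(0 : ℤ), (2 : ℤ)] (fun _ => 0) w from
        funext fun w => by rw [pairProduct_SS (fun _ => 0) 2 w]; rfl]
      exact hV _
    · intro Ω _ P a z hmod hz hlim
      have hm : Model P a := ⟨hmod.meas, hmod.law⟩
      have hlim' : Tendsto (fun n : ℕ => MM (z n) / Real.log n) atTop (𝓝 1) := by
        have h1 := hlim.inv₀ one_ne_zero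
        rw [inv_one] at h1
        refine h1.congr fun n => ?_
        rw [mertens_MM, mul_inv, inv_inv]
        ring
      filter_upwards [conc' Ω P a hm] with ω hω
      have hcon := hω 2 ![(1 : ℤ), 1] (by norm_num) (by intro i; fin_cases i <;> simp)
      refine ⟨fun θ ε hθ hε => ?_, ?_⟩
      · filter_upwards [int' (fun q => a q ω) z hz hlim' hcon θ ε hθ hε] with n hn y h h1 h2 h3 h4
        have h5 := hn y h h1 h2 h3 h4
        rw [pairProduct_SS (fun q => a q ω)]
        exact h5
      · exact cube' (fun q => a q ω) z V hz hlim' hcon hV0 (hV _)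

end Pool.Agent.Results.MP_d610d0_nt.RandomSieveTwins
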